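import Pool.Agent.W_332fe5.Geo

set_option autoImplicit false

/-! The example is admissible: the ball is a smooth domain, parabolicity, the assumptions on `g`. -/

open MeasureTheory ProbabilityTheory Set Filter Topology
open scoped ENNReal NNReal

namespace Pool.Agent.W_332fe5

theorem smoothDomain_Bl : SmoothDomain Bl := by
  refine ⟨Metric.isOpen_ball, ?_, Metric.isBounded_ball, fun x => ‖x‖ ^ 2 - 1, ?_, ?_, ?_⟩
  · refine ⟨⟨0, by simp [Bl]⟩, ?_⟩
    exact (convex_ball (0 : E3) 1).isPreconnected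
  · exact (contDiff_norm_sq ℝ).sub contDiff_const
  · ext x
    simp only [Bl, Metric.mem_ball, dist_zero_right, mem_ofPred_eq]
    constructor
    · intro h
      nlinarith [norm_nonneg x]
    · intro h
      nlinarith [norm_nonneg x]
  · intro x hx h
    have h1 : HasFDerivAt (fun x : E3 => ‖x‖ ^ 2 - 1) (2 • (innerSL ℝ x)) x := by
      exact ((hasStrictFDerivAt_norm_sq x).hasFDerivAt).sub_const 1
    have h2 : fderiv ℝ (fun x : E3 => ‖x‖ ^ 2 - 1) x x = 0 := by
      rw [h]; rfl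
    rw [h1.fderiv] at h2
    simp at h2
    rw [h2] at hx
    simp at hx

theorem F_cc_sq {zt : ℝ} (h1 : 1 < zt) (h2 : zt ≤ 6 / 5) :
    0 < cc zt ∧ cc zt ^ 2 = -2 * Real.cos (Real.pi / zt) ∧ cc zt ^ 2 < 2 := by
  have hp := Real.pi_pos
  have a1 : Real.pi / 2 < Real.pi / zt := by
    apply div_lt_div_of_pos_left hp (by linarith) (by linarith)
  have a2 : Real.pi / zt < Real.pi := by
    rw [div_lt_iff₀ (by linarith)]
    nlinarith
  have b1 : Real.cos (Real.pi / zt) < 0 := Real.cos_neg_of_pi_div_two_lt_of_lt a1 (by linarith)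
  have b2 : -1 < Real.cos (Real.pi / zt) := by
    rw [← Real.cos_pi]
    exact Real.cos_lt_cos_of_nonneg_of_le_pi (by positivity) le_rfl a2
  have c1 : 0 < -2 * Real.cos (Real.pi / zt) := by linarith
  refine ⟨Real.sqrt_pos.2 c1, Real.sq_sqrt c1.le, ?_⟩
  unfold cc
  rw [Real.sq_sqrt c1.le]
  linarith

theorem mm_add (x y : E3) : mm (x + y) = mm x + mm y := by
  ext i
  fin_cases i
  · simp [mm]; ring
  · simp [mm]
  · simp [mm]

theorem mm_sub (x y : E3) : mm (x - y) = mm x - mm y := by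
  ext i
  fin_cases i
  · simp [mm]; ring
  · simp [mm]
  · simp [mm]

theorem norm_mm_le (x : E3) : ‖mm x‖ ≤ ‖x‖ := by
  have h : ‖mm x‖ ^ 2 ≤ ‖x‖ ^ 2 := by
    rw [EuclideanSpace.norm_sq_eq, EuclideanSpace.norm_sq_eq, Fin.sum_univ_three,
      Fin.sum_univ_three]
    simp only [Real.norm_eq_abs, sq_abs]
    simp [mm]
    nlinarith [sq_nonneg (x 2)]
  exact (pow_le_pow_iff_left₀ (norm_nonneg _) (norm_nonneg _) two_ne_zero).1 h

theorem continuous_mm : Continuous mm := by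
  have h : mm = fun x : E3 => (WithLp.toLp 2 ![-x 1, x 0, 0] : E3) := rfl
  rw [h]
  refine (PiLp.continuous_toLp 2 _).comp ?_
  refine continuous_pi fun i => ?_
  fin_cases i
  · simp; fun_prop
  · simp; fun_prop
  · simp; fun_prop

/-- Two-term `ℓ²` sums. -/
theorem tsum_two {f : ℕ → ℝ≥0∞} (h : ∀ n, 2 ≤ n → f n = 0) : ∑' n, f n = f 0 + f 1 := by
  rw [tsum_eq_sum (s := Finset.range 2)]
  · simp [Finset.sum_range_succ]
  · intro n hn
    exact h n (by simpa [Nat.succ_le_iff] using hn)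

theorem l2n_two {a : ℕ → E3} (h : ∀ n, 2 ≤ n → a n = 0) {C : ℝ} (hC : 0 ≤ C)
    (h2 : ‖a 0‖ ^ 2 + ‖a 1‖ ^ 2 ≤ C ^ 2) : l2n a ≤ ENNReal.ofReal C := by
  unfold l2n
  rw [tsum_two (by intro n hn; simp [h n hn])]
  have h3 : ‖a 0‖ₑ ^ 2 + ‖a 1‖ₑ ^ 2 = ENNReal.ofReal (‖a 0‖ ^ 2 + ‖a 1‖ ^ 2) := by
    rw [ENNReal.ofReal_add (by positivity) (by positivity), ENNReal.ofReal_pow (norm_nonneg _),
      ENNReal.ofReal_pow (norm_nonneg _), ofReal_norm, ofReal_norm]
  rw [h3]
  calc ENNReal.ofReal (‖a 0‖ ^ 2 + ‖a 1‖ ^ 2) ^ (1 / 2 : ℝ)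
      ≤ ENNReal.ofReal (C ^ 2) ^ (1 / 2 : ℝ) := by gcongr
    _ = ENNReal.ofReal C := by
        rw [ENNReal.ofReal_rpow_of_nonneg (by positivity) (by norm_num), ← Real.sqrt_eq_rpow,
          Real.sqrt_sq hC]

theorem coeffs_ex {zt : ℝ} (h1 : 1 < zt) (h2 : zt ≤ 6 / 5) {r : E3 → ℝ} (hr : Measurable r)
    {ε : ℝ} (hε : cc zt ^ 2 + ε ^ 2 < 2) (hε1 : ε ≤ 1) (hr1 : ∀ x, |r x| ≤ ε) :
    Coeffs Bl 1 (bEx zt r) (gEx zt r) := by
  obtain ⟨c0, c1, c2⟩ := F_cc_sq h1 h2
  have hε0 : 0 ≤ ε := (abs_nonneg _).trans (hr1 0)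
  have hgz : ∀ x, (fun n => gEx zt r n x 0) = fun _ => 0 := by
    intro x
    funext n
    have m0 : mm 0 = 0 := by
      have := mm_sub 0 0
      simpa using this
    unfold gEx
    split_ifs <;> simp [m0]
  have hz : l2n (fun _ => (0 : E3)) = 0 := by
    simp [l2n]
  refine ⟨⟨(cc zt ^ 2 + ε ^ 2) / 2, by positivity, by linarith, ?_⟩, ?_, ?_, ⟨0, ?_⟩, ⟨2, ?_⟩⟩
  · intro x hx ξ
    rw [tsum_two (by intro n hn; simp [bEx, show n ≠ 0 by omega, show n ≠ 1 by omega])]
    rw [← ENNReal.ofReal_add (by positivity) (by positivity)]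
    apply ENNReal.ofReal_le_ofReal
    have hx1 : ‖x‖ ≤ 1 := by
      have : x ∈ Metric.ball (0 : E3) 1 := hx
      simpa using (Metric.mem_ball.1 this).le
    have e0 : |inner ℝ (bEx zt r 0 x) ξ| ≤ cc zt * ‖ξ‖ := by
      refine (abs_real_inner_le_norm _ _).trans ?_
      simp only [bEx, if_true, norm_smul, Real.norm_eq_abs, abs_of_pos c0]
      have := mul_le_mul_of_nonneg_left hx1 c0.le
      nlinarith [norm_nonneg ξ]
    have e1 : |inner ℝ (bEx zt r 1 x) ξ| ≤ ε * ‖ξ‖ := by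
      refine (abs_real_inner_le_norm _ _).trans ?_
      simp only [bEx, one_ne_zero, if_false, if_true, norm_smul, Real.norm_eq_abs]
      have := mul_le_mul (hr1 x) ((norm_mm_le x).trans hx1) (norm_nonneg _) hε0
      nlinarith [norm_nonneg ξ]
    have f0 : inner ℝ (bEx zt r 0 x) ξ ^ 2 ≤ (cc zt * ‖ξ‖) ^ 2 := sq_le_sq' (by
      linarith [neg_abs_le (inner ℝ (bEx zt r 0 x) ξ)]) ((le_abs_self _).trans e0)
    have f1 : inner ℝ (bEx zt r 1 x) ξ ^ 2 ≤ (ε * ‖ξ‖) ^ 2 := sq_le_sq' (by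
      linarith [neg_abs_le (inner ℝ (bEx zt r 1 x) ξ)]) ((le_abs_self _).trans e1)
    linarith
  · intro n
    unfold gEx
    split_ifs
    · exact (measurable_snd : Measurable fun z : E3 × E3 => z.2).const_smul (cc zt)
    · exact ((hr.comp measurable_fst).smul (continuous_mm.measurable.comp measurable_snd)).neg
    · exact measurable_const
  · simp only [hgz, hz]
    simp
  · intro x _
    simp only [hgz, hz]
    simp
  · intro x _ y y'
    have h3 : l2n (fun n => gEx zt r n x y - gEx zt r n x y') ≤ ENNReal.ofReal (2 * ‖y - y'‖) := by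
      apply l2n_two
      · intro n hn
        simp [gEx, show n ≠ 0 by omega, show n ≠ 1 by omega]
      · positivity
      · have g0 : ‖gEx zt r 0 x y - gEx zt r 0 x y'‖ = cc zt * ‖y - y'‖ := by
          simp only [gEx, if_true, ← smul_sub, norm_smul, Real.norm_eq_abs, abs_of_pos c0]
        have g1 : ‖gEx zt r 1 x y - gEx zt r 1 x y'‖ ≤ ‖y - y'‖ := by
          simp only [gEx, one_ne_zero, if_false, if_true]
          rw [← neg_sub', norm_neg, ← smul_sub, ← mm_sub, norm_smul, Real.norm_eq_abs]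
          have := mul_le_mul ((hr1 x).trans hε1) (norm_mm_le (y - y')) (norm_nonneg _) zero_le_one
          linarith
        rw [g0]
        have g2 : ‖gEx zt r 1 x y - gEx zt r 1 x y'‖ ^ 2 ≤ ‖y - y'‖ ^ 2 := by gcongr
        nlinarith [sq_nonneg ‖y - y'‖]
    refine h3.trans ?_
    rw [← ENNReal.ofReal_coe_nnreal, ← ENNReal.ofReal_mul (by positivity)]
    apply ENNReal.ofReal_le_ofReal
    push_cast
    nlinarith [norm_nonneg y, norm_nonneg y', norm_nonneg (y - y'),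
      mul_nonneg (add_nonneg (norm_nonneg y) (norm_nonneg y')) (norm_nonneg (y - y'))]

end Pool.Agent.W_332fe5
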