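import Pool.Agent.W_332fe5.F.F1

set_option autoImplicit false

/-! The exact Hölder exponent of the example. -/

open MeasureTheory ProbabilityTheory Set Filter Topology
open scoped ENNReal NNReal

namespace Pool.Agent.W_332fe5

/-- The rough rotation invariant factor `ε |x₃|^θ`. -/
noncomputable def rEx (ε θ : ℝ) (x : E3) : ℝ := ε * (min |x 2| 1) ^ θ

theorem rEx_meas (ε : ℝ) {θ : ℝ} (hθ : 0 < θ) : Measurable (rEx ε θ) := by
  have h : Continuous (rEx ε θ) := by
    unfold rEx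
    refine continuous_const.mul (Continuous.rpow_const ?_ (fun _ => Or.inr hθ.le))
    fun_prop
  exact h.measurable

theorem rEx_le {ε θ : ℝ} (hε : 0 ≤ ε) (hθ : 0 < θ) (x : E3) : |rEx ε θ x| ≤ ε := by
  unfold rEx
  have h0 : 0 ≤ min |x 2| 1 := le_min (abs_nonneg _) zero_le_one
  have h1 : (min |x 2| 1) ^ θ ≤ 1 := Real.rpow_le_one h0 (min_le_right _ _) hθ.le
  have h2 : 0 ≤ (min |x 2| 1) ^ θ := Real.rpow_nonneg h0 _
  rw [abs_of_nonneg (by positivity)]
  nlinarith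

theorem rEx_rot (ε θ a : ℝ) (x : E3) : rEx ε θ (rot a x) = rEx ε θ x := by
  simp [rEx, rot]

theorem abs_rpow_sub_le {a b θ : ℝ} (ha : 0 ≤ a) (hb : 0 ≤ b) (h0 : 0 < θ) (h1 : θ ≤ 1) :
    |a ^ θ - b ^ θ| ≤ |a - b| ^ θ := by
  have key : ∀ a b : ℝ, 0 ≤ b → b ≤ a → a ^ θ - b ^ θ ≤ (a - b) ^ θ := by
    intro a b hb hab
    have h := Real.rpow_add_le_add_rpow (sub_nonneg.2 hab) hb h0.le h1
    rw [sub_add_cancel] at h
    linarith
  rcases le_total b a with h | h
  · rw [abs_of_nonneg (sub_nonneg.2 (Real.rpow_le_rpow hb h h0.le)), abs_of_nonneg (by linarith)]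
    exact key a b hb h
  · rw [abs_sub_comm, abs_sub_comm a b,
      abs_of_nonneg (sub_nonneg.2 (Real.rpow_le_rpow ha h h0.le)), abs_of_nonneg (by linarith)]
    exact key b a ha h

theorem mem_Bl_norm {x : E3} (hx : x ∈ Bl) : ‖x‖ ≤ 1 := by
  have : x ∈ Metric.ball (0 : E3) 1 := hx
  simpa using (Metric.mem_ball.1 this).le

theorem abs_coord_le (x : E3) (i : Fin 3) : |x i| ≤ ‖x‖ := by
  have := PiLp.norm_apply_le x i
  simpa using this

/-- The example is Hölder continuous with every exponent `α ≤ θ`. -/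
theorem holder_ex {zt : ℝ} (h1 : 1 < zt) (h2 : zt ≤ 6 / 5) {ε θ α : ℝ} (hε : 0 ≤ ε) (hε1 : ε ≤ 1)
    (hθ : 0 < θ) (hθ1 : θ ≤ 1) (hα : 0 < α) (hαθ : α ≤ θ) : HolderB Bl α (bEx zt (rEx ε θ)) := by
  obtain ⟨c0, c1, c2⟩ := F_cc_sq h1 h2
  have c3 : cc zt ≤ 2 := by nlinarith
  refine ⟨8, ?_, ?_⟩
  · intro x hx
    have := mem_Bl_norm hx
    rw [show ((8 : ℝ≥0) : ℝ≥0∞) = ENNReal.ofReal 8 by simp]
    apply l2n_two
    · intro n hn
      simp [bEx, show n ≠ 0 by omega, show n ≠ 1 by omega]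
    · norm_num
    · have g0 : ‖bEx zt (rEx ε θ) 0 x‖ ≤ 2 := by
        simp only [bEx, if_true, norm_smul, Real.norm_eq_abs, abs_of_pos c0]
        nlinarith [norm_nonneg x]
      have g1 : ‖bEx zt (rEx ε θ) 1 x‖ ≤ 1 := by
        simp only [bEx, one_ne_zero, if_false, if_true, norm_smul, Real.norm_eq_abs]
        have := mul_le_mul ((rEx_le hε hθ x).trans hε1) ((norm_mm_le x).trans this)
          (norm_nonneg _) zero_le_one
        linarith
      nlinarith [norm_nonneg (bEx zt (rEx ε θ) 0 x), norm_nonneg (bEx zt (rEx ε θ) 1 x)]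
  · intro x hx y hy
    have hx1 := mem_Bl_norm hx
    have hy1 := mem_Bl_norm hy
    have hd : ‖x - y‖ ≤ 2 := by
      have := norm_sub_le x y
      linarith
    have hd0 := norm_nonneg (x - y)
    have e1 : ‖x - y‖ ≤ 2 * ‖x - y‖ ^ α := by
      rcases hd0.eq_or_lt with h | h
      · rw [← h, Real.zero_rpow hα.ne']; simp
      · have : ‖x - y‖ = ‖x - y‖ ^ (1 - α) * ‖x - y‖ ^ α := by
          rw [← Real.rpow_add h]; simp
        have h3 : ‖x - y‖ ^ (1 - α) ≤ 2 := by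
          calc ‖x - y‖ ^ (1 - α) ≤ 2 ^ (1 - α) := Real.rpow_le_rpow hd0 hd (by linarith)
            _ ≤ 2 ^ (1 : ℝ) := Real.rpow_le_rpow_of_exponent_le (by norm_num) (by linarith)
            _ = 2 := Real.rpow_one 2
        have h4 := Real.rpow_nonneg hd0 α
        nlinarith
    have e2 : ‖x - y‖ ^ θ ≤ 2 * ‖x - y‖ ^ α := by
      rcases hd0.eq_or_lt with h | h
      · rw [← h, Real.zero_rpow hα.ne', Real.zero_rpow hθ.ne']; simp
      · have : ‖x - y‖ ^ θ = ‖x - y‖ ^ (θ - α) * ‖x - y‖ ^ α := by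
          rw [← Real.rpow_add h]; simp
        have h3 : ‖x - y‖ ^ (θ - α) ≤ 2 := by
          calc ‖x - y‖ ^ (θ - α) ≤ 2 ^ (θ - α) := Real.rpow_le_rpow hd0 hd (by linarith)
            _ ≤ 2 ^ (1 : ℝ) := Real.rpow_le_rpow_of_exponent_le (by norm_num) (by linarith)
            _ = 2 := Real.rpow_one 2
        have h4 := Real.rpow_nonneg hd0 α
        nlinarith
    have hD : 0 ≤ ‖x - y‖ ^ α := Real.rpow_nonneg hd0 _
    rw [show ((8 : ℝ≥0) : ℝ≥0∞) = ENNReal.ofReal 8 by simp, dist_eq_norm,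
      ← ENNReal.ofReal_mul (by norm_num)]
    apply l2n_two
    · intro n hn
      simp [bEx, show n ≠ 0 by omega, show n ≠ 1 by omega]
    · positivity
    · have g0 : ‖bEx zt (rEx ε θ) 0 x - bEx zt (rEx ε θ) 0 y‖ ≤ 4 * ‖x - y‖ ^ α := by
        simp only [bEx, if_true, ← smul_sub, norm_smul, Real.norm_eq_abs, abs_of_pos c0]
        nlinarith
      have g1 : ‖bEx zt (rEx ε θ) 1 x - bEx zt (rEx ε θ) 1 y‖ ≤ 4 * ‖x - y‖ ^ α := by
        simp only [bEx, one_ne_zero, if_false, if_true]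
        have s1 : rEx ε θ x • mm x - rEx ε θ y • mm y =
            (rEx ε θ x - rEx ε θ y) • mm x + rEx ε θ y • mm (x - y) := by
          rw [mm_sub, sub_smul, smul_sub]; abel
        have s2 : |rEx ε θ x - rEx ε θ y| ≤ ‖x - y‖ ^ θ := by
          unfold rEx
          rw [← mul_sub, abs_mul, abs_of_nonneg hε]
          have t1 := abs_rpow_sub_le (a := min |x 2| 1) (b := min |y 2| 1)
            (le_min (abs_nonneg _) zero_le_one) (le_min (abs_nonneg _) zero_le_one) hθ hθ1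
          have t2 : |min |x 2| 1 - min |y 2| 1| ≤ ‖x - y‖ := by
            calc |min |x 2| 1 - min |y 2| 1| ≤ max (|(|x 2| - |y 2|)|) |(1 : ℝ) - 1| :=
                  abs_min_sub_min_le_max _ _ _ _
              _ ≤ |x 2 - y 2| := by
                  rw [sub_self, abs_zero]
                  exact max_le (abs_abs_sub_abs_le_abs_sub _ _) (abs_nonneg _)
              _ ≤ ‖x - y‖ := by
                  have := abs_coord_le (x - y) 2
                  simpa using this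
          have t3 : |min |x 2| 1 - min |y 2| 1| ^ θ ≤ ‖x - y‖ ^ θ :=
            Real.rpow_le_rpow (abs_nonneg _) t2 hθ.le
          have t4 := abs_nonneg ((min |x 2| 1) ^ θ - (min |y 2| 1) ^ θ)
          nlinarith
        rw [s1]
        refine (norm_add_le _ _).trans ?_
        rw [norm_smul, norm_smul, Real.norm_eq_abs, Real.norm_eq_abs]
        have u1 : |rEx ε θ x - rEx ε θ y| * ‖mm x‖ ≤ ‖x - y‖ ^ θ * 1 :=
          mul_le_mul s2 ((norm_mm_le x).trans hx1) (norm_nonneg _) ((abs_nonneg _).trans s2)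
        have u2 : |rEx ε θ y| * ‖mm (x - y)‖ ≤ 1 * ‖x - y‖ :=
          mul_le_mul ((rEx_le hε hθ y).trans hε1) (norm_mm_le _) (norm_nonneg _) zero_le_one
        linarith
      nlinarith [norm_nonneg (bEx zt (rEx ε θ) 0 x - bEx zt (rEx ε θ) 0 y),
        norm_nonneg (bEx zt (rEx ε θ) 1 x - bEx zt (rEx ε θ) 1 y)]

/-- The example is not Hölder continuous with an exponent `α > θ`. -/
theorem not_holder_ex {zt : ℝ} {ε θ α : ℝ} (hε : 0 < ε) (hθ : 0 < θ) (hαθ : θ < α) :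
    ¬ HolderB Bl α (bEx zt (rEx ε θ)) := by
  rintro ⟨C, _, h⟩
  have hy : (!₂[1 / 2, 0, 0] : E3) ∈ Bl := by
    simp only [Bl, Metric.mem_ball, dist_zero_right]
    rw [EuclideanSpace.norm_eq, Fin.sum_univ_three]
    simp
    norm_num
  have key : ∀ t : ℝ, 0 < t → t ≤ 1 / 2 → ε / 2 ≤ C * t ^ (α - θ) := by
    intro t ht ht1
    have hx : (!₂[1 / 2, 0, t] : E3) ∈ Bl := by
      simp only [Bl, Metric.mem_ball, dist_zero_right]
      rw [EuclideanSpace.norm_eq, Fin.sum_univ_three, Real.sqrt_lt' one_pos]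
      simp
      nlinarith
    have h1 := h _ hx _ hy
    have hd : dist (!₂[1 / 2, 0, t] : E3) !₂[1 / 2, 0, 0] = t := by
      rw [EuclideanSpace.dist_eq, Fin.sum_univ_three]
      simp [Real.sqrt_sq ht.le]
    rw [hd] at h1
    have h2 : ‖bEx zt (rEx ε θ) 1 !₂[1 / 2, 0, t] - bEx zt (rEx ε θ) 1 !₂[1 / 2, 0, 0]‖ₑ ≤
        l2n (fun n => bEx zt (rEx ε θ) n !₂[1 / 2, 0, t] -
          bEx zt (rEx ε θ) n !₂[1 / 2, 0, 0]) := by
      unfold l2n
      have h3 := ENNReal.le_tsum (f := fun n => ‖bEx zt (rEx ε θ) n !₂[1 / 2, 0, t] -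
          bEx zt (rEx ε θ) n !₂[1 / 2, 0, 0]‖ₑ ^ 2) 1
      calc _ = ((‖bEx zt (rEx ε θ) 1 !₂[1 / 2, 0, t] -
          bEx zt (rEx ε θ) 1 !₂[1 / 2, 0, 0]‖ₑ ^ 2) ^ (1 / 2 : ℝ)) := by
            rw [← ENNReal.rpow_natCast, ← ENNReal.rpow_mul]
            norm_num
        _ ≤ _ := by gcongr
    have h4 : bEx zt (rEx ε θ) 1 !₂[1 / 2, 0, t] - bEx zt (rEx ε θ) 1 !₂[1 / 2, 0, 0] =
        !₂[0, ε * t ^ θ / 2, 0] := by
      simp only [bEx, one_ne_zero, if_false, if_true, rEx]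
      ext i
      fin_cases i
      · simp [mm]
      · simp [mm, abs_of_pos ht, min_eq_left (show t ≤ 1 by linarith), Real.zero_rpow hθ.ne']
        ring
      · simp [mm]
    have h5 : ‖(!₂[0, ε * t ^ θ / 2, 0] : E3)‖ = ε * t ^ θ / 2 := by
      rw [EuclideanSpace.norm_eq, Fin.sum_univ_three]
      have : 0 ≤ ε * t ^ θ / 2 := by positivity
      simp
      rw [Real.sqrt_sq_eq_abs, abs_of_pos hε, abs_of_pos (Real.rpow_pos_of_pos ht θ),
        abs_of_nonneg this]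
    have h6 := h2.trans h1
    rw [h4, ← ofReal_norm, h5, ← ENNReal.ofReal_coe_nnreal, ← ENNReal.ofReal_mul (by positivity),
      ENNReal.ofReal_le_ofReal_iff (by positivity)] at h6
    have h7 : t ^ α = t ^ (α - θ) * t ^ θ := by
      rw [← Real.rpow_add ht]; simp
    rw [h7] at h6
    have h8 : 0 < t ^ θ := Real.rpow_pos_of_pos ht _
    have h9 : (ε / 2) * t ^ θ ≤ (C * t ^ (α - θ)) * t ^ θ := by linarith
    exact le_of_mul_le_mul_right h9 h8
  have lim : Tendsto (fun t : ℝ => C * t ^ (α - θ)) (𝓝[>] 0) (𝓝 (C * 0 ^ (α - θ))) := by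
    have h1 : ContinuousAt (fun t : ℝ => (C : ℝ) * t ^ (α - θ)) 0 :=
      continuousAt_const.mul (Real.continuousAt_rpow_const _ _ (Or.inr (by linarith)))
    exact (h1.tendsto).mono_left nhdsWithin_le_nhds
  rw [Real.zero_rpow (by linarith), mul_zero] at lim
  have h3 : ε / 2 ≤ 0 := by
    refine ge_of_tendsto lim ?_
    filter_upwards [Ioc_mem_nhdsGT (show (0 : ℝ) < 1 / 2 by norm_num)] with t ht
    exact key t ht.1 ht.2
  linarith

/-- The smooth example. -/
theorem bEx_zero_smooth (zt : ℝ) (n : ℕ) :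
    ContDiff ℝ ((⊤ : ℕ∞) : WithTop ℕ∞) (bEx zt (fun _ => 0) n) := by
  unfold bEx
  split_ifs
  · exact (contDiff_id : ContDiff ℝ _ (fun x : E3 => x)).const_smul (cc zt)
  · simp only [zero_smul]
    exact contDiff_const
  · exact contDiff_const

end Pool.Agent.W_332fe5
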