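import Pool.Agent.W_332fe5.F.F2
import Pool.Agent.W_332fe5.Core

set_option autoImplicit false

/-! The final statements, from the two main theorems `CoreMain` and `LwpCore`. -/

open MeasureTheory ProbabilityTheory Set Filter Topology
open scoped ENNReal NNReal

namespace Pool.Agent.W_332fe5

/-- Local well-posedness fails on every stochastic basis. -/
def Fails (O : Set E3) (ν : ℝ) (b : ℕ → E3 → E3) (g : ℕ → E3 → E3 → E3) (p κ δ q : ℝ) : Prop :=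
  ∀ (Ω : Type) (_ : MeasurableSpace Ω) (B : Basis Ω), ¬ LWP B O ν b g p κ δ q

theorem par_of_critical {zt p κ δ q : ℝ} (h1 : 1 < zt) (h2 : zt ≤ 6 / 5) (h : Critical p κ δ q)
    (hδ : 3 * zt / 4 - 1 ≤ δ) : Par zt p κ δ q := by
  obtain ⟨h3, h4, h5, h6, h7⟩ := h
  rcases h3 with h3 | h3
  · exact ⟨h1, h2, h3.1, h3.2.1, h3.2.2, hδ, h5, h6, h7⟩
  · obtain ⟨rfl, rfl, rfl⟩ := h3
    norm_num at h7
    linarith

theorem exists_eps {zt : ℝ} (h1 : 1 < zt) (h2 : zt ≤ 6 / 5) :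
    ∃ ε : ℝ, 0 < ε ∧ ε ≤ 1 ∧ cc zt ^ 2 + ε ^ 2 < 2 := by
  obtain ⟨c0, c1, c2⟩ := F_cc_sq h1 h2
  refine ⟨min 1 ((2 - cc zt ^ 2) / 2), by
    rw [lt_min_iff]; exact ⟨one_pos, by linarith⟩, min_le_left _ _, ?_⟩
  have h3 : 0 < min 1 ((2 - cc zt ^ 2) / 2) := by
    rw [lt_min_iff]; exact ⟨one_pos, by linarith⟩
  have h4 : min 1 ((2 - cc zt ^ 2) / 2) ≤ 1 := min_le_left _ _
  have h5 : min 1 ((2 - cc zt ^ 2) / 2) ≤ (2 - cc zt ^ 2) / 2 := min_le_right _ _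
  nlinarith

/-- (A): for every `θ < 1/4` coefficients which are Hölder continuous exactly with the exponents
`α ≤ θ`, such that local well-posedness fails for every admissible critical tuple. -/
def StatA : Prop :=
  ∀ θ : ℝ, 0 < θ → θ < 1 / 4 →
  ∃ (O : Set E3) (ν : ℝ) (b : ℕ → E3 → E3) (g : ℕ → E3 → E3 → E3),
    SmoothDomain O ∧ 0 < ν ∧ Coeffs O ν b g ∧
    (∀ α : ℝ, 0 < α → α ≤ 1 → (HolderB O α b ↔ α ≤ θ)) ∧
    ∀ p κ δ q : ℝ, Critical p κ δ q →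
      (∃ α : ℝ, -δ < α ∧ 0 < α ∧ α ≤ 1 ∧ HolderB O α b) → Fails O ν b g p κ δ q

/-- (B): for every `δ₀ > -1/4` a single smooth transport field, such that local well-posedness
fails for every critical tuple with `δ ≥ δ₀`. -/
def StatB : Prop :=
  ∀ δ₀ : ℝ, -(1 / 4) < δ₀ → δ₀ ≤ 0 →
  ∃ (O : Set E3) (ν : ℝ) (b : ℕ → E3 → E3) (g : ℕ → E3 → E3 → E3),
    SmoothDomain O ∧ 0 < ν ∧ Coeffs O ν b g ∧
    (∀ n, ContDiff ℝ ((⊤ : ℕ∞) : WithTop ℕ∞) (b n)) ∧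
    (∃ c : ℝ, (∀ x, b 0 x = c • x) ∧ ∀ x y, g 0 x y = c • y) ∧
    (∀ n, 1 ≤ n → (∀ x, b n x = 0) ∧ ∀ x y, g n x y = 0) ∧
    ∀ p κ δ q : ℝ, Critical p κ δ q → δ₀ ≤ δ → Fails O ν b g p κ δ q

/-- The two main theorems. -/
def MainHyp : Prop :=
  ∀ zt p κ δ q : ℝ, Par zt p κ δ q → CoreMain zt p κ δ q ∧ LwpCore zt p κ δ q

theorem statA_of (H : MainHyp) : StatA := by
  intro θ h0 h1
  set zt : ℝ := min (6 / 5) (4 / 3 * (1 - θ)) with hzt
  have z1 : 1 < zt := by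
    rw [hzt, lt_min_iff]
    exact ⟨by norm_num, by linarith⟩
  have z2 : zt ≤ 6 / 5 := min_le_left _ _
  have z3 : zt ≤ 4 / 3 * (1 - θ) := min_le_right _ _
  obtain ⟨ε, e0, e1, e2⟩ := exists_eps z1 z2
  refine ⟨Bl, 1, bEx zt (rEx ε θ), gEx zt (rEx ε θ), smoothDomain_Bl, one_pos,
    coeffs_ex z1 z2 (rEx_meas ε h0) e2 e1 (rEx_le e0.le h0), ?_, ?_⟩
  · intro α a0 a1
    constructor
    · intro h
      by_contra hc
      exact not_holder_ex e0 h0 (not_le.1 hc) h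
    · intro h
      exact holder_ex z1 z2 e0.le e1 h0 (by linarith) a0 h
  · rintro p κ δ q hc ⟨α, a1, a2, a3, a4⟩ Ω _ B
    have a5 : α ≤ θ := by
      by_contra hcc
      exact not_holder_ex e0 h0 (not_le.1 hcc) a4
    obtain ⟨m1, m2⟩ := H zt p κ δ q (par_of_critical z1 z2 hc (by linarith))
    exact not_lwp m1 m2 (rEx ε θ) (rEx_meas ε h0) (fun x => (rEx_le e0.le h0 x).trans e1)
      (rEx_rot ε θ) Ω B

theorem statB_of (H : MainHyp) : StatB := by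
  intro δ₀ h0 h1
  set zt : ℝ := min (6 / 5) (4 / 3 * (1 + δ₀)) with hzt
  have z1 : 1 < zt := by
    rw [hzt, lt_min_iff]
    exact ⟨by norm_num, by linarith⟩
  have z2 : zt ≤ 6 / 5 := min_le_left _ _
  have z3 : zt ≤ 4 / 3 * (1 + δ₀) := min_le_right _ _
  obtain ⟨c0, c1, c2⟩ := F_cc_sq z1 z2
  refine ⟨Bl, 1, bEx zt (fun _ => 0), gEx zt (fun _ => 0), smoothDomain_Bl, one_pos,
    coeffs_ex z1 z2 measurable_const (ε := 0) (by simpa using c2) zero_le_one (by simp),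
    bEx_zero_smooth zt, ⟨cc zt, fun x => by simp [bEx], fun x y => by simp [gEx]⟩, ?_, ?_⟩
  · intro n hn
    have hn0 : n ≠ 0 := by omega
    refine ⟨fun x => ?_, fun x y => ?_⟩
    · simp only [bEx, hn0, if_false]
      split_ifs <;> simp
    · simp only [gEx, hn0, if_false]
      split_ifs <;> simp
  · intro p κ δ q hc hδ Ω _ B
    obtain ⟨m1, m2⟩ := H zt p κ δ q (par_of_critical z1 z2 hc (by linarith))
    exact not_lwp m1 m2 (fun _ => 0) measurable_const (fun x => by simp) (fun _ _ => rfl) Ω B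

theorem negQ1_of (H : StatA) : NegQ1 := by
  obtain ⟨O, ν, b, g, h1, h2, h3, h4, h5⟩ := H (1 / 8) (by norm_num) (by norm_num)
  refine ⟨O, ν, b, g, h1, h2, h3, ⟨1 / 8, by norm_num, by norm_num,
    (h4 (1 / 8) (by norm_num) (by norm_num)).2 le_rfl⟩, ?_⟩
  intro Ω mΩ B p κ δ q hc h6
  exact h5 p κ δ q hc h6 Ω mΩ B

end Pool.Agent.W_332fe5
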