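import Pool.Agent.W_332fe5.F.F3
import Pool.Agent.W_332fe5.O.N1
import Pool.Agent.W_332fe5_h65.Out5
import Pool.Agent.W_332fe5_h24.S4
import Pool.Agent.W_332fe5_h47.Asm

set_option autoImplicit false

/-! The two main theorems and the final statements. -/

open MeasureTheory ProbabilityTheory Set Filter Topology
open scoped ENNReal NNReal

namespace Pool.Agent.W_332fe5

theorem coreMain {zt p κ δ q : ℝ} (h : Par zt p κ δ q) : CoreMain zt p κ δ q := by
  have h0 : -(1 / 4) < δ := by
    have := h.d0
    have := h.z1
    linarith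
  have hq : 1 < q := by
    have := h.hq
    linarith
  obtain ⟨n1, n2, n3, n4⟩ := need5 h
  exact Six.coreMain_of h (need1Lin h0 h.d1) (need1Reg h0 h.d1) (need1Gam h0 h.d1 hq) n1 n2 n3 n4

theorem mainHyp : MainHyp := fun _ _ _ _ _ h => ⟨coreMain h, lwpCore h⟩

theorem statA : StatA := statA_of mainHyp

theorem statB : StatB := statB_of mainHyp

theorem negQ1 : NegQ1 := negQ1_of statA

end Pool.Agent.W_332fe5
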